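import Pool.Agent.TH837.SC.Count

/-!
Counting permutations which agree often with a given one, or which have an image in common.
-/

set_option autoImplicit false

namespace Pool.Agent.TH837.AP

open Finset
open scoped Nat
open Pool.Agent.TH837.SC

variable {n : ℕ}

theorem card_agree (τ : Equiv.Perm (Fin n)) (J : Finset (Fin n)) :
    (univ.filter fun σ : Equiv.Perm (Fin n) => ∀ i ∈ J, σ i = τ i).card ≤ (n - J.card)! := by
  classical
  let χ : Fin n → Option (Fin n) := fun b => if τ.symm b ∈ J then some b else none
  let ft : Fin n → Option (Fin n) := fun a => if a ∈ J then some (τ a) else none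
  have hsub : (univ.filter fun σ : Equiv.Perm (Fin n) => ∀ i ∈ J, σ i = τ i) ⊆
      (univ : Finset (Fin n ≃ Fin n)).filter fun σ : Fin n ≃ Fin n => χ ∘ σ = ft := by
    intro σ hσ
    simp only [mem_filter, mem_univ, true_and] at hσ ⊢
    funext a
    simp only [χ, ft, Function.comp_apply]
    by_cases ha : a ∈ J
    · rw [if_pos ha, hσ a ha, if_pos (by simpa using ha)]
    · rw [if_neg ha, if_neg]
      intro h
      apply ha
      have h1 := hσ _ h
      rw [Equiv.apply_symm_apply] at h1
      have h2 := σ.injective h1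
      rwa [h2] at h
  refine (card_le_card hsub).trans ((card_col χ ft).trans ?_)
  rw [Fintype.prod_option]
  have h1 : ∏ c : Fin n, (Fintype.card {b // χ b = some c})! = 1 := by
    refine prod_eq_one fun c _ => ?_
    have : Fintype.card {b // χ b = some c} ≤ 1 := by
      rw [Fintype.card_le_one_iff]
      rintro ⟨b, hb⟩ ⟨b', hb'⟩
      simp only [χ] at hb hb'
      split_ifs at hb hb'
      simp only [Option.some.injEq] at hb hb'
      simp [hb, hb']
    interval_cases h : Fintype.card {b // χ b = some c} <;> simp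
  rw [h1, mul_one]
  apply Nat.factorial_le
  have h2 : Fintype.card {b // χ b = none} = ((J.map τ.toEmbedding)ᶜ).card := by
    rw [Fintype.card_subtype]
    congr 1
    ext b
    simp only [χ, mem_filter, mem_univ, true_and, mem_compl, mem_map, Equiv.coe_toEmbedding]
    constructor
    · intro h
      by_contra hcon
      obtain ⟨a, ha, rfl⟩ := hcon
      simp [ha] at h
    · intro h
      rw [if_neg]
      intro h'
      exact h ⟨_, h', by simp⟩
  rw [h2, card_compl, card_map, Fintype.card_fin]

theorem card_common (τ : Equiv.Perm (Fin n)) (j : ℕ) :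
    (univ.filter fun σ : Equiv.Perm (Fin n) =>
      j ≤ (univ.filter fun i => σ i = τ i).card).card ≤ n.choose j * (n - j)! := by
  classical
  have hsub : (univ.filter fun σ : Equiv.Perm (Fin n) =>
      j ≤ (univ.filter fun i => σ i = τ i).card) ⊆ (powersetCard j univ).biUnion fun J =>
        univ.filter fun σ : Equiv.Perm (Fin n) => ∀ i ∈ J, σ i = τ i := by
    intro σ hσ
    simp only [mem_filter, mem_univ, true_and] at hσ
    obtain ⟨J, hJ, hJc⟩ := exists_subset_card_eq hσ
    rw [mem_biUnion]
    refine ⟨J, mem_powersetCard.2 ⟨subset_univ _, hJc⟩, ?_⟩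
    simp only [mem_filter, mem_univ, true_and]
    intro i hi
    exact (mem_filter.1 (hJ hi)).2
  refine (card_le_card hsub).trans (card_biUnion_le.trans ?_)
  calc _ ≤ ∑ J ∈ powersetCard j (univ : Finset (Fin n)), (n - j)! := by
        refine sum_le_sum fun J hJ => ?_
        have := card_agree τ J
        rwa [(mem_powersetCard.1 hJ).2] at this
    _ = _ := by rw [sum_const, card_powersetCard, card_univ, Fintype.card_fin, smul_eq_mul]

theorem card_closed (τ : Equiv.Perm (Fin n)) (T : Finset (Fin n)) :
    (univ.filter fun σ : Equiv.Perm (Fin n) => T.map σ.toEmbedding = T.map τ.toEmbedding).card ≤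
      T.card ! * (n - T.card)! := by
  classical
  let χ : Fin n → Bool := fun b => decide (b ∈ T.map τ.toEmbedding)
  let ft : Fin n → Bool := fun a => decide (a ∈ T)
  have hsub : (univ.filter fun σ : Equiv.Perm (Fin n) =>
      T.map σ.toEmbedding = T.map τ.toEmbedding) ⊆
      (univ : Finset (Fin n ≃ Fin n)).filter fun σ : Fin n ≃ Fin n => χ ∘ σ = ft := by
    intro σ hσ
    simp only [mem_filter, mem_univ, true_and] at hσ ⊢
    funext a
    simp only [χ, ft, Function.comp_apply]
    rw [← hσ]
    simp
  refine (card_le_card hsub).trans ((card_col χ ft).trans (le_of_eq ?_))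
  rw [Fintype.prod_bool]
  have h1 : Fintype.card {b // χ b = true} = T.card := by
    have : Fintype.card {b // χ b = true} = (T.map τ.toEmbedding).card := by
      rw [Fintype.card_subtype]
      congr 1
      ext b
      simp [χ]
    rw [this, card_map]
  have h2 : Fintype.card {b // χ b = false} = n - T.card := by
    have : Fintype.card {b // χ b = false} = ((T.map τ.toEmbedding)ᶜ).card := by
      rw [Fintype.card_subtype]
      congr 1
      ext b
      simp [χ]
    rw [this, card_compl, card_map, Fintype.card_fin]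
  rw [h1, h2]

/-- the permutations which have the same image as `τ` of a large set disjoint from `D` -/
theorem card_closed_some (τ : Equiv.Perm (Fin n)) (D : Finset (Fin n)) {a d : ℕ}
    (hd : d ≤ D.card) (hn : 0 < n) :
    ((univ.filter fun σ : Equiv.Perm (Fin n) => ∃ T : Finset (Fin n), Disjoint T D ∧
      a ≤ T.card ∧ T.map σ.toEmbedding = T.map τ.toEmbedding).card : ℝ) ≤
      n ! * ((n + 1) * Real.exp (-((d : ℝ) * a / n))) := by
  classical
  have hDn : D.card ≤ n := by simpa using card_le_univ D
  have hn' : (0 : ℝ) < n := by exact_mod_cast hn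
  have hsub : (univ.filter fun σ : Equiv.Perm (Fin n) => ∃ T : Finset (Fin n), Disjoint T D ∧
      a ≤ T.card ∧ T.map σ.toEmbedding = T.map τ.toEmbedding) ⊆
      (Icc a n).biUnion fun b => (powersetCard b Dᶜ).biUnion fun T =>
        univ.filter fun σ : Equiv.Perm (Fin n) => T.map σ.toEmbedding = T.map τ.toEmbedding := by
    intro σ hσ
    simp only [mem_filter, mem_univ, true_and] at hσ
    obtain ⟨T, h1, h2, h3⟩ := hσ
    rw [mem_biUnion]
    refine ⟨T.card, mem_Icc.2 ⟨h2, by simpa using card_le_univ T⟩, ?_⟩
    rw [mem_biUnion]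
    refine ⟨T, mem_powersetCard.2 ⟨?_, rfl⟩, by simpa using h3⟩
    intro x hx
    rw [mem_compl]
    exact disjoint_left.1 h1 hx
  have hnat : (univ.filter fun σ : Equiv.Perm (Fin n) => ∃ T : Finset (Fin n), Disjoint T D ∧
      a ≤ T.card ∧ T.map σ.toEmbedding = T.map τ.toEmbedding).card ≤
      ∑ b ∈ Icc a n, (n - d).choose b * (b ! * (n - b)!) := by
    refine (card_le_card hsub).trans (card_biUnion_le.trans (sum_le_sum fun b _ => ?_))
    refine card_biUnion_le.trans ?_
    calc _ ≤ ∑ T ∈ powersetCard b Dᶜ, b ! * (n - b)! := by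
          refine sum_le_sum fun T hT => ?_
          have := card_closed τ T
          rwa [(mem_powersetCard.1 hT).2] at this
      _ = (n - D.card).choose b * (b ! * (n - b)!) := by
          rw [sum_const, card_powersetCard, card_compl, Fintype.card_fin, smul_eq_mul]
      _ ≤ _ := Nat.mul_le_mul_right _ (Nat.choose_le_choose b (by omega))
  have hterm : ∀ b ∈ Icc a n, ((n - d).choose b * (b ! * (n - b)!) : ℝ) ≤
      n ! * Real.exp (-((d : ℝ) * a / n)) := by
    intro b hb
    rw [mem_Icc] at hb
    have h1 : ((n - d).choose b : ℝ) ≤ n.choose b * ((n - d : ℕ) / n : ℝ) ^ b := by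
      have := choose_ratio (show n - d ≤ n by omega) b
      have h2 : ((n - d).choose b : ℝ) * (n : ℝ) ^ b ≤ n.choose b * ((n - d : ℕ) : ℝ) ^ b := by
        exact_mod_cast this
      rw [div_pow, ← mul_div_assoc, le_div_iff₀ (by positivity)]
      exact h2
    have h2 : (((n - d : ℕ) : ℝ) / n) ≤ Real.exp (-((d : ℝ) / n)) := by
      have h3 : (((n - d : ℕ) : ℝ) / n) = 1 - d / n := by
        rw [Nat.cast_sub (by omega)]; field_simp
      rw [h3]
      have := Real.add_one_le_exp (-((d : ℝ) / n))
      linarith
    have h3 : (((n - d : ℕ) : ℝ) / n) ^ b ≤ Real.exp (-((d : ℝ) * a / n)) := by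
      calc (((n - d : ℕ) : ℝ) / n) ^ b ≤ Real.exp (-((d : ℝ) / n)) ^ b :=
            pow_le_pow_left₀ (by positivity) h2 b
        _ = Real.exp (b * (-((d : ℝ) / n))) := by rw [← Real.exp_nat_mul]
        _ ≤ Real.exp (-((d : ℝ) * a / n)) := by
            apply Real.exp_le_exp.2
            have h4 : (a : ℝ) ≤ b := by exact_mod_cast hb.1
            have h5 : (0 : ℝ) ≤ d / n := by positivity
            have h6 : (d : ℝ) * a / n = a * (d / n) := by ring
            rw [h6]
            nlinarith
    have h4 : (n.choose b : ℝ) * (b ! * (n - b)!) = n ! := by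
      rw [← mul_assoc]
      exact_mod_cast Nat.choose_mul_factorial_mul_factorial hb.2
    calc ((n - d).choose b * (b ! * (n - b)!) : ℝ) ≤
          (n.choose b * Real.exp (-((d : ℝ) * a / n))) * (b ! * (n - b)!) := by
          refine mul_le_mul_of_nonneg_right (h1.trans ?_) (by positivity)
          exact mul_le_mul_of_nonneg_left h3 (by positivity)
      _ = (n.choose b * (b ! * (n - b)!)) * Real.exp (-((d : ℝ) * a / n)) := by ring
      _ = _ := by rw [h4]
  calc _ ≤ ((∑ b ∈ Icc a n, (n - d).choose b * (b ! * (n - b)!) : ℕ) : ℝ) := by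
        exact_mod_cast hnat
    _ = ∑ b ∈ Icc a n, ((n - d).choose b * (b ! * (n - b)!) : ℝ) := by push_cast; rfl
    _ ≤ ∑ _b ∈ Icc a n, (n ! * Real.exp (-((d : ℝ) * a / n))) := sum_le_sum hterm
    _ = ((n + 1 - a : ℕ) : ℝ) * (n ! * Real.exp (-((d : ℝ) * a / n))) := by
        rw [sum_const, Nat.card_Icc, nsmul_eq_mul]
    _ ≤ ((n : ℝ) + 1) * (n ! * Real.exp (-((d : ℝ) * a / n))) := by
        apply mul_le_mul_of_nonneg_right _ (by positivity)
        have : n + 1 - a ≤ n + 1 := by omega
        exact_mod_cast this
    _ = _ := by ring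

end Pool.Agent.TH837.AP
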