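import Pool.Agent.TH837.AP.Skel
import Pool.Agent.TH837.AP.Perm

/-!
The patterns in which the edges of a matching occur in the pieces of a proof tree.
-/

set_option autoImplicit false

namespace Pool.Agent.TH837.AP

open Finset
open scoped Nat ENNReal
open Pool.Agent.TH837.SC

variable {n : ℕ}

theorem card_in (σ : Equiv.Perm (Fin n)) (g : Multiset (Fin n × Fin n)) :
    (univ.filter fun i => (i, σ i) ∈ g).card ≤ g.card := by
  classical
  calc (univ.filter fun i => (i, σ i) ∈ g).card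
      = ((univ.filter fun i => (i, σ i) ∈ g).image fun i => (i, σ i)).card := by
        rw [card_image_of_injective]
        intro a b h
        simpa using (Prod.ext_iff.1 h).1
    _ ≤ g.toFinset.card := by
        refine card_le_card fun e he => ?_
        rw [mem_image] at he
        obtain ⟨i, hi, rfl⟩ := he
        simpa using hi
    _ ≤ g.card := Multiset.toFinset_card_le g

/-- the pieces in which the edge at `i` occurs -/
def pat (K : ℕ) (σ : Equiv.Perm (Fin n)) (f : ℕ → Multiset (Fin n × Fin n)) (i : Fin n) :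
    Finset ℕ :=
  (range K).filter fun k => (i, σ i) ∈ f k

theorem comb {K t : ℕ} {ρ : ℝ} (hρ : 1 ≤ ρ) (hK : 2 ^ (K + 1) ≤ n)
    (ht : 8 * ρ * t ≤ n) (σ : Equiv.Perm (Fin n)) (f : ℕ → Multiset (Fin n × Fin n))
    (h1 : ∑ k ∈ range K, ((f k).card : ℝ) ≤ ρ * n) (h2 : ∀ k, (f k).card ≤ 2 * t) :
    ∃ R ∈ (range K).powerset, n / 2 ^ (K + 1) ≤ (univ.filter fun i => pat K σ f i = R).card ∧
      2 * (univ.filter fun i => ∃ k ∈ R, (i, σ i) ∈ f k).card ≤ n := by
  classical
  have hsum : ∑ i : Fin n, ((pat K σ f i).card : ℝ) ≤ ρ * n := by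
    refine le_trans ?_ h1
    have h3 : ∑ i : Fin n, (pat K σ f i).card =
        ∑ k ∈ range K, (univ.filter fun i => (i, σ i) ∈ f k).card := by
      simp only [pat, card_filter]
      exact sum_comm
    calc ∑ i : Fin n, ((pat K σ f i).card : ℝ) = ((∑ i : Fin n, (pat K σ f i).card : ℕ) : ℝ) := by
          push_cast; rfl
      _ = ∑ k ∈ range K, ((univ.filter fun i => (i, σ i) ∈ f k).card : ℝ) := by
          rw [h3]; push_cast; rfl
      _ ≤ _ := sum_le_sum fun k _ => by exact_mod_cast card_in σ (f k)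
  set H : Finset (Fin n) := univ.filter fun i => ((pat K σ f i).card : ℝ) ≤ 2 * ρ with hH
  have hHn : n ≤ 2 * H.card := by
    have h3 : ((univ.filter fun i => ¬ ((pat K σ f i).card : ℝ) ≤ 2 * ρ).card : ℝ) * (2 * ρ) ≤
        ρ * n := by
      refine le_trans ?_ hsum
      calc ((univ.filter fun i => ¬ ((pat K σ f i).card : ℝ) ≤ 2 * ρ).card : ℝ) * (2 * ρ)
          = ∑ i ∈ univ.filter (fun i => ¬ ((pat K σ f i).card : ℝ) ≤ 2 * ρ), 2 * ρ := by
            rw [sum_const, nsmul_eq_mul]
        _ ≤ ∑ i ∈ univ.filter (fun i => ¬ ((pat K σ f i).card : ℝ) ≤ 2 * ρ),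
              ((pat K σ f i).card : ℝ) :=
            sum_le_sum fun i hi => (not_le.1 (mem_filter.1 hi).2).le
        _ ≤ _ := sum_le_sum_of_subset_of_nonneg (filter_subset _ _) fun _ _ _ => by positivity
    have h4 : H.card + (univ.filter fun i => ¬ ((pat K σ f i).card : ℝ) ≤ 2 * ρ).card = n := by
      rw [hH, card_filter_add_card_filter_not]
      simp
    have h5 : ((univ.filter fun i => ¬ ((pat K σ f i).card : ℝ) ≤ 2 * ρ).card : ℝ) * 2 ≤ n := by
      have h6 : 0 < ρ := by linarith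
      have h7 : ρ * (((univ.filter fun i => ¬ ((pat K σ f i).card : ℝ) ≤ 2 * ρ).card : ℝ) * 2) ≤
        ρ * n := by linarith
      exact le_of_mul_le_mul_left h7 h6
    have h6 : (univ.filter fun i => ¬ ((pat K σ f i).card : ℝ) ≤ 2 * ρ).card * 2 ≤ n := by
      exact_mod_cast h5
    omega
  have hpig : (range K).powerset.card * (n / 2 ^ (K + 1)) ≤ H.card := by
    rw [card_powerset, card_range]
    have h3 : 2 ^ (K + 1) * (n / 2 ^ (K + 1)) ≤ n := Nat.mul_div_le _ _
    have h4 : 2 ^ (K + 1) * (n / 2 ^ (K + 1)) = 2 * (2 ^ K * (n / 2 ^ (K + 1))) := by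
      rw [pow_succ]; ring
    omega
  obtain ⟨R, hR, hRc⟩ := exists_le_card_fiber_of_mul_le_card_of_maps_to
    (f := fun i => pat K σ f i) (fun i _ => mem_powerset.2 (filter_subset _ _))
    ⟨∅, by simp⟩ hpig
  have hd : 1 ≤ n / 2 ^ (K + 1) := by
    rw [Nat.le_div_iff_mul_le (by positivity)]; omega
  refine ⟨R, hR, hRc.trans (card_le_card ?_), ?_⟩
  · intro i hi
    rw [mem_filter] at hi ⊢
    exact ⟨mem_univ _, hi.2⟩
  · obtain ⟨i, hi⟩ := card_pos.1 (hd.trans hRc)
    rw [mem_filter] at hi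
    have hRcard : (R.card : ℝ) ≤ 2 * ρ := by
      rw [← hi.2]
      exact (mem_filter.1 hi.1).2
    have h3 : (univ.filter fun i => ∃ k ∈ R, (i, σ i) ∈ f k).card ≤ R.card * (2 * t) := by
      calc (univ.filter fun i => ∃ k ∈ R, (i, σ i) ∈ f k).card
          ≤ (R.biUnion fun k => univ.filter fun i => (i, σ i) ∈ f k).card := by
            refine card_le_card fun i hi => ?_
            rw [mem_filter] at hi
            obtain ⟨_, k, hk, hk'⟩ := hi
            rw [mem_biUnion]
            exact ⟨k, hk, mem_filter.2 ⟨mem_univ _, hk'⟩⟩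
        _ ≤ ∑ k ∈ R, (univ.filter fun i => (i, σ i) ∈ f k).card := card_biUnion_le
        _ ≤ ∑ _k ∈ R, 2 * t := sum_le_sum fun k _ => (card_in σ (f k)).trans (h2 k)
        _ = _ := by rw [sum_const, smul_eq_mul]
    have h4 : ((univ.filter fun i => ∃ k ∈ R, (i, σ i) ∈ f k).card : ℝ) ≤ R.card * (2 * t) := by
      exact_mod_cast h3
    have h5 : (2 : ℝ) * (univ.filter fun i => ∃ k ∈ R, (i, σ i) ∈ f k).card ≤ n := by
      have h6 : (R.card : ℝ) * (2 * t) ≤ 2 * ρ * (2 * t) :=
        mul_le_mul_of_nonneg_right hRcard (by positivity)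
      linarith
    exact_mod_cast h5

/-- mixing the pieces of two matchings -/
theorem mixed {K : ℕ} (σ σ' τ : Equiv.Perm (Fin n)) (f f' : ℕ → Multiset (Fin n × Fin n))
    (hf : ∀ k, ∀ e ∈ f k, e.2 = σ e.1) (hf' : ∀ k, ∀ e ∈ f' k, e.2 = σ' e.1)
    {R : Finset ℕ} (hτ : ∀ i, (∃ k ∈ R, (i, τ i) ∈ f k) ∨ ∃ k ∈ range K, k ∉ R ∧ (i, τ i) ∈ f' k)
    (h2 : 2 * (univ.filter fun i => ∃ k ∈ R, (i, σ i) ∈ f k).card ≤ n) {j : ℕ} (hj : 4 * j ≤ n) :
    (j ≤ (univ.filter fun i => σ i = σ' i).card) ∨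
      ∃ T : Finset (Fin n), Disjoint T (univ.filter fun i => pat K σ' f' i = R) ∧
        j ≤ T.card ∧ T.map σ.toEmbedding = T.map σ'.toEmbedding := by
  classical
  by_cases hc : j ≤ (univ.filter fun i => σ i = σ' i).card
  · exact Or.inl hc
  right
  have hcase : ∀ i, τ i = σ i ∨ τ i = σ' i := by
    intro i
    rcases hτ i with ⟨k, _, hk⟩ | ⟨k, _, _, hk⟩
    · left; exact hf k _ hk
    · right; exact hf' k _ hk
  refine ⟨univ.filter fun i => τ i ≠ σ i, ?_, ?_, ?_⟩
  · rw [disjoint_left]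
    intro i hi hi'
    rw [mem_filter] at hi hi'
    rcases hτ i with ⟨k, _, hk⟩ | ⟨k, hkK, hkR, hk⟩
    · exact hi.2 (hf k _ hk)
    · have h3 : τ i = σ' i := hf' k _ hk
      rw [h3] at hk
      apply hkR
      rw [← hi'.2]
      exact mem_filter.2 ⟨hkK, hk⟩
  · have h3 : (univ : Finset (Fin n)) ⊆ (univ.filter fun i => τ i ≠ σ i) ∪
        ((univ.filter fun i => ∃ k ∈ R, (i, σ i) ∈ f k) ∪ univ.filter fun i => σ i = σ' i) := by
      intro i _
      by_cases h4 : τ i = σ i
      · rw [mem_union]; right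
        rw [mem_union]
        rcases hτ i with ⟨k, hkR, hk⟩ | ⟨k, _, _, hk⟩
        · left
          rw [h4] at hk
          exact mem_filter.2 ⟨mem_univ _, k, hkR, hk⟩
        · right
          have h5 : τ i = σ' i := hf' k _ hk
          exact mem_filter.2 ⟨mem_univ _, by rw [← h4, h5]⟩
      · rw [mem_union]; left
        exact mem_filter.2 ⟨mem_univ _, h4⟩
    have h4 := card_le_card h3
    have h5 := card_union_le (univ.filter fun i => τ i ≠ σ i)
        ((univ.filter fun i => ∃ k ∈ R, (i, σ i) ∈ f k) ∪ univ.filter fun i => σ i = σ' i)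
    have h6 := card_union_le (univ.filter fun i => ∃ k ∈ R, (i, σ i) ∈ f k)
        (univ.filter fun i => σ i = σ' i)
    rw [card_univ, Fintype.card_fin] at h4
    omega
  · -- the images agree
    have h3 : (univ.filter fun i => τ i ≠ σ i).map τ.toEmbedding =
        (univ.filter fun i => τ i ≠ σ i).map σ'.toEmbedding := by
      rw [map_eq_image, map_eq_image]
      refine image_congr fun i hi => ?_
      rw [mem_coe, mem_filter] at hi
      exact (hcase i).resolve_left hi.2
    rw [← h3]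
    have h4 : ((univ.filter fun i => τ i ≠ σ i)ᶜ).map τ.toEmbedding =
        ((univ.filter fun i => τ i ≠ σ i)ᶜ).map σ.toEmbedding := by
      rw [map_eq_image, map_eq_image]
      refine image_congr fun i hi => ?_
      rw [mem_coe, mem_compl, mem_filter, not_and, not_not] at hi
      exact hi (mem_univ _)
    have h5 : ∀ π : Equiv.Perm (Fin n), ∀ T : Finset (Fin n),
        T.map π.toEmbedding = ((Tᶜ).map π.toEmbedding)ᶜ := by
      intro π T
      ext b
      simp only [mem_map_equiv, mem_compl, not_not]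
    rw [h5 σ, h5 τ, h4]

end Pool.Agent.TH837.AP
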