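import Pool.Agent.TH837.AP.Main

/-!
The lower bound for (min,+) programs which approximate the assignment problem: explicit form.
-/

set_option autoImplicit false

namespace Pool.Agent.TH837.AP

open Finset
open scoped Nat ENNReal
open Pool.Agent.TH837.SC

theorem two_pow_le_fact : ∀ j : ℕ, 2 ^ j ≤ 2 * j !
  | 0 => by simp
  | 1 => by simp
  | j + 2 => by
    have h := two_pow_le_fact (j + 1)
    rw [pow_succ, Nat.factorial_succ (j + 1)]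
    have h1 : 0 < (j + 1)! := Nat.factorial_pos _
    nlinarith

theorem e1 {n y W z : ℝ} (hW : 1 ≤ W) (hyW : y * (32 * W) = n) (hy : 2 ^ 19 * W ≤ y)
    (hz : y ≤ z) : (n + 1) * Real.exp (-z) ≤ 1 / 2 * Real.exp (-(y / 2)) := by
  have hy1 : 1 ≤ y := by linarith
  have hn1 : 1 ≤ n := by rw [← hyW]; nlinarith
  have h1 : Real.exp (-z) ≤ Real.exp (-(y / 2)) * Real.exp (-(y / 2)) := by
    rw [← Real.exp_add, Real.exp_le_exp]
    linarith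
  have h2 : (n + 1) * Real.exp (-(y / 2)) ≤ 1 / 2 := by
    rw [Real.exp_neg, ← div_eq_mul_inv, div_le_iff₀ (Real.exp_pos _)]
    have h3 := Real.quadratic_le_exp_of_nonneg (x := y / 2) (by linarith)
    have h5 : 2 * n ≤ y ^ 2 / 16 := by
      rw [← hyW, pow_two]
      have : 1024 * W ≤ y := by linarith
      have h6 : y * (1024 * W) ≤ y * y := mul_le_mul_of_nonneg_left this (by linarith)
      linarith
    have h6 : (y / 2) ^ 2 = y ^ 2 / 4 := by ring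
    rw [h6] at h3
    have h7 : 0 ≤ y ^ 2 := by positivity
    linarith
  calc (n + 1) * Real.exp (-z) ≤ (n + 1) * (Real.exp (-(y / 2)) * Real.exp (-(y / 2))) :=
        mul_le_mul_of_nonneg_left h1 (by linarith)
    _ = (n + 1) * Real.exp (-(y / 2)) * Real.exp (-(y / 2)) := by ring
    _ ≤ 1 / 2 * Real.exp (-(y / 2)) := mul_le_mul_of_nonneg_right h2 (Real.exp_pos _).le

theorem e2 {n y W C F : ℝ} {j : ℕ} (hW : 1 ≤ W) (hyW : y * (32 * W) = n)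
    (hy : 1 ≤ y) (hj : n / 8 ≤ j) (hC0 : 0 ≤ C) (hC : C * 2 ^ j ≤ 2 * F) :
    C ≤ F * (1 / 2 * Real.exp (-(y / 2))) := by
  have h3 : 4 * Real.exp (y / 2) ≤ 2 ^ j := by
    have h4 : Real.exp (y / 2) ≤ (2 : ℝ) ^ y := by
      rw [Real.rpow_def_of_pos (by norm_num), Real.exp_le_exp]
      have h5 : 1 / 2 ≤ Real.log 2 := by have := Real.log_two_gt_d9; linarith
      have h6 : 1 / 2 * y ≤ Real.log 2 * y := mul_le_mul_of_nonneg_right h5 (by linarith)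
      linarith
    have h5 : (4 : ℝ) = 2 ^ (2 : ℝ) := by norm_num
    have h6 : 4 * y ≤ n / 8 := by
      rw [← hyW]
      have : y * 1 ≤ y * W := mul_le_mul_of_nonneg_left hW (by linarith)
      linarith
    calc 4 * Real.exp (y / 2) ≤ 4 * (2 : ℝ) ^ y := mul_le_mul_of_nonneg_left h4 (by norm_num)
      _ = 2 ^ (2 + y) := by rw [Real.rpow_add (by norm_num), ← h5]
      _ ≤ (2 : ℝ) ^ (j : ℝ) := by
          apply Real.rpow_le_rpow_of_exponent_le (by norm_num)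
          linarith
      _ = 2 ^ j := Real.rpow_natCast _ _
  have h5 : C * (4 * Real.exp (y / 2)) ≤ 2 * F :=
    (mul_le_mul_of_nonneg_left h3 hC0).trans hC
  have h6 : (0 : ℝ) < Real.exp (y / 2) := Real.exp_pos _
  rw [Real.exp_neg]
  have h7 : F * (1 / 2 * (Real.exp (y / 2))⁻¹) = (2 * F) / (4 * Real.exp (y / 2)) := by
    field_simp; ring
  rw [h7, le_div_iff₀ (by positivity)]
  exact h5

theorem e3 {x W l s : ℝ} {K : ℕ} (hW : W = 2 ^ K) (hK : (K : ℝ) ≤ W) (hx : 1 ≤ x) (hl0 : 0 ≤ l)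
    (hl : l ≤ s) (hs : s + 1 < 2 ^ x) :
    (l + 2) ^ (2 ^ K - 1) * 2 ^ K ≤ (2 : ℝ) ^ (3 * x * W) := by
  have h2 : (2 : ℝ) ≤ 2 ^ x := by
    calc (2 : ℝ) = 2 ^ (1 : ℝ) := by rw [Real.rpow_one]
      _ ≤ 2 ^ x := Real.rpow_le_rpow_of_exponent_le (by norm_num) hx
  have hlen : l + 2 ≤ 2 ^ (2 * x) := by
    have h3 : (2 : ℝ) ^ (2 * x) = 2 ^ x * 2 ^ x := by
      rw [← Real.rpow_add (by norm_num)]; congr 1; ring
    have h4 : (2 : ℝ) * 2 ^ x ≤ 2 ^ x * 2 ^ x := mul_le_mul_of_nonneg_right h2 (by positivity)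
    rw [h3]
    linarith
  have h1 : (1 : ℝ) ≤ l + 2 := by linarith
  have h3 : (l + 2) ^ (2 ^ K - 1) ≤ (2 : ℝ) ^ (2 * x * W) := by
    calc (l + 2) ^ (2 ^ K - 1) ≤ (l + 2) ^ (2 ^ K) := pow_le_pow_right₀ h1 (Nat.sub_le _ _)
      _ ≤ ((2 : ℝ) ^ (2 * x)) ^ (2 ^ K) := pow_le_pow_left₀ (by linarith) hlen _
      _ = 2 ^ (2 * x * W) := by
          rw [← Real.rpow_natCast, ← Real.rpow_mul (by norm_num), hW]
          push_cast
          rfl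
  have h4 : (2 : ℝ) ^ K ≤ 2 ^ (x * W) := by
    rw [← Real.rpow_natCast]
    apply Real.rpow_le_rpow_of_exponent_le (by norm_num)
    have hW0 : 0 ≤ W := by rw [hW]; positivity
    have : 1 * W ≤ x * W := mul_le_mul_of_nonneg_right hx hW0
    linarith
  calc (l + 2) ^ (2 ^ K - 1) * 2 ^ K ≤ (2 : ℝ) ^ (2 * x * W) * 2 ^ (x * W) := by
        gcongr
    _ = 2 ^ (3 * x * W) := by
        rw [← Real.rpow_add (by norm_num)]; congr 1; ring

theorem e4 {x W y N n A F C E Zc : ℝ} (hW : 1 ≤ W) (hx : 1 ≤ x) (hyW : y * (32 * W) = n)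
    (hy : 1 ≤ y) (hxN : x * N = n) (hN : 2 ^ 24 * W ^ 2 ≤ N) (hF : 0 < F)
    (h1 : (2 : ℝ) ^ (-x) * F ≤ Zc) (h2 : Zc ≤ A * (C + F * E))
    (hA : A ≤ (2 : ℝ) ^ (3 * x * W)) (hC0 : 0 ≤ C) (hE0 : 0 ≤ E)
    (hC : C ≤ F * (1 / 2 * Real.exp (-(y / 2)))) (hE : E ≤ 1 / 2 * Real.exp (-(y / 2))) :
    False := by
  have hA4 : Real.exp (-(y / 2)) ≤ (2 : ℝ) ^ (-(y / 2)) := by
    rw [Real.rpow_def_of_pos (by norm_num), Real.exp_le_exp]
    have h5 : Real.log 2 ≤ 1 := by have := Real.log_two_lt_d9; linarith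
    have h6 : Real.log 2 * (y / 2) ≤ 1 * (y / 2) := mul_le_mul_of_nonneg_right h5 (by linarith)
    linarith
  have h3 : (2 : ℝ) ^ (-x) * F ≤ 2 ^ (3 * x * W) * Real.exp (-(y / 2)) * F := by
    calc (2 : ℝ) ^ (-x) * F ≤ A * (C + F * E) := h1.trans h2
      _ ≤ 2 ^ (3 * x * W) * (F * (1 / 2 * Real.exp (-(y / 2))) +
            F * (1 / 2 * Real.exp (-(y / 2)))) := by
          refine mul_le_mul hA (add_le_add hC (mul_le_mul_of_nonneg_left hE hF.le))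
            (by positivity) (by positivity)
      _ = _ := by ring
  have h4 := le_of_mul_le_mul_right h3 hF
  have h5 : (2 : ℝ) ^ (-x) ≤ 2 ^ (3 * x * W + -(y / 2)) := by
    rw [Real.rpow_add (by norm_num)]
    exact h4.trans (mul_le_mul_of_nonneg_left hA4 (by positivity))
  rw [Real.rpow_le_rpow_left_iff (by norm_num)] at h5
  have hxW : x * 1 ≤ x * W := mul_le_mul_of_nonneg_left hW (by linarith)
  have h6 : y ≤ 8 * (x * W) := by linarith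
  have h7 : x * N ≤ x * (256 * W ^ 2) := by
    rw [hxN, ← hyW]
    calc y * (32 * W) ≤ 8 * (x * W) * (32 * W) := mul_le_mul_of_nonneg_right h6 (by linarith)
      _ = _ := by ring
  have h8 : N ≤ 256 * W ^ 2 := le_of_mul_le_mul_left h7 (by linarith)
  have h9 : 1 ≤ W ^ 2 := one_le_pow₀ hW
  linarith

variable {n : ℕ} {Z : Finset (Equiv.Perm (Fin n))} {L : List (Ins (Fin n × Fin n))}

/-- the constants -/
theorem params {ρ N : ℝ} (hρ : 1 ≤ ρ) (hN : N = (2 : ℝ) ^ (220 * ρ ^ 2)) (hNn : N ≤ n) :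
    ∃ (K t : ℕ) (W : ℝ), W = 2 ^ K ∧ (K : ℝ) ≤ W ∧ 1 ≤ W ∧ 2 ^ 24 * W ^ 2 ≤ N ∧
      2 ^ (K + 1) ≤ n ∧ 96 * ρ ^ 2 + 2 < K + 1 ∧ 1 ≤ t ∧ 8 * ρ * t ≤ n ∧ n ≤ 16 * ρ * t := by
  obtain ⟨K, hK1, hK2⟩ : ∃ K : ℕ, (K : ℝ) ≤ 96 * ρ ^ 2 + 2 ∧ 96 * ρ ^ 2 + 2 < K + 1 :=
    ⟨⌊96 * ρ ^ 2 + 2⌋₊, Nat.floor_le (by positivity), Nat.lt_floor_add_one _⟩
  obtain ⟨W, hW⟩ : ∃ W : ℝ, W = (2 : ℝ) ^ K := ⟨_, rfl⟩
  have hρ2 : ρ ≤ ρ ^ 2 := by nlinarith
  have hNW : 2 ^ 24 * W ^ 2 ≤ N := by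
    have h1 : (2 : ℝ) ^ 24 * W ^ 2 = (2 : ℝ) ^ ((2 * K + 24 : ℕ) : ℝ) := by
      rw [Real.rpow_natCast, hW, pow_add, pow_mul']
      ring
    rw [h1, hN]
    apply Real.rpow_le_rpow_of_exponent_le (by norm_num)
    push_cast
    linarith
  have hW1 : (K : ℝ) + 1 ≤ W := by
    rw [hW]
    have h1 : K + 1 ≤ 2 ^ K := Nat.lt_two_pow_self
    exact_mod_cast h1
  have hρW : ρ ≤ W := by linarith
  have hW2 : 1 ≤ W := by linarith
  have hnW : 2 ^ 24 * W ^ 2 ≤ n := hNW.trans hNn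
  have hWW : W * 1 ≤ W ^ 2 := by rw [pow_two]; exact mul_le_mul_of_nonneg_left hW2 (by linarith)
  have hnW' : 2 ^ 24 * W ≤ n := by linarith
  have hn0 : (0 : ℝ) < n := by linarith
  have hnat : 2 ^ (K + 1) ≤ n := by
    have h1 : (2 : ℝ) ^ (K + 1) ≤ n := by
      rw [pow_succ, ← hW]; linarith
    exact_mod_cast h1
  have hρ0 : 0 < ρ := by linarith
  obtain ⟨t, ht1, ht2⟩ : ∃ t : ℕ, (t : ℝ) ≤ n / (8 * ρ) ∧ (n : ℝ) / (8 * ρ) < t + 1 :=
    ⟨⌊(n : ℝ) / (8 * ρ)⌋₊, Nat.floor_le (by positivity), Nat.lt_floor_add_one _⟩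
  have ht3 : 2 ≤ (n : ℝ) / (8 * ρ) := by
    rw [le_div_iff₀ (by positivity)]
    linarith
  have ht4 : 1 ≤ t := by
    have h1 : (0 : ℝ) < t := by linarith
    exact_mod_cast h1
  have ht4' : (1 : ℝ) ≤ t := by exact_mod_cast ht4
  refine ⟨K, t, W, hW, by linarith, hW2, hNW, hnat, hK2, ht4, ?_, ?_⟩
  · rw [le_div_iff₀ (by positivity)] at ht1; linarith
  · rw [div_lt_iff₀ (by positivity)] at ht2
    have h1 : ρ * 1 ≤ ρ * t := mul_le_mul_of_nonneg_left ht4' hρ0.le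
    linarith

theorem final {ρ : ℝ} {s : ℕ} (hρ : 1 ≤ ρ) (hs : 1 ≤ s)
    (h : MReq L Z (ENNReal.ofReal (ρ * n))) (hL : L.length ≤ s)
    (hZ : (2 : ℝ) ^ (-((n : ℝ) / 2 ^ (220 * ρ ^ 2))) * (n ! : ℕ) ≤ Z.card) :
    (2 : ℝ) ^ ((n : ℝ) / 2 ^ (220 * ρ ^ 2)) ≤ s + 1 := by
  by_contra hlt
  rw [not_le] at hlt
  obtain ⟨N, hN⟩ : ∃ N : ℝ, N = (2 : ℝ) ^ (220 * ρ ^ 2) := ⟨_, rfl⟩
  rw [← hN] at hZ hlt
  have hN0 : 0 < N := by rw [hN]; positivity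
  obtain ⟨x, hx⟩ : ∃ x : ℝ, x = n / N := ⟨_, rfl⟩
  rw [← hx] at hZ hlt
  have hx1 : 1 ≤ x := by
    by_contra hc
    rw [not_le] at hc
    have h1 : (2 : ℝ) ^ x ≤ 2 ^ (1 : ℝ) :=
      Real.rpow_le_rpow_of_exponent_le (by norm_num) hc.le
    rw [Real.rpow_one] at h1
    have h2 : (1 : ℝ) ≤ s := by exact_mod_cast hs
    linarith
  have hNn : N ≤ n := by
    rw [hx, le_div_iff₀ hN0] at hx1; linarith
  have hxN : x * N = n := by rw [hx]; field_simp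
  obtain ⟨K, t, W, hW, hKW, hW1, hNW, hnat, hK2, ht1, ht2, ht3⟩ := params hρ hN hNn
  have hmain := main h hρ hnat ht1 ht2 ht3 hK2 (j := n / 4) (Nat.mul_div_le n 4)
  have hWW : W * 1 ≤ W ^ 2 := by rw [pow_two]; exact mul_le_mul_of_nonneg_left hW1 (by linarith)
  have hnW' : 2 ^ 24 * W ≤ n := by linarith
  have hn0 : (0 : ℝ) < n := by linarith
  -- bounds for j and d
  have hj1 : (n : ℝ) / 8 ≤ (n / 4 : ℕ) := by
    have h1 : n < 4 * (n / 4) + 4 := by omega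
    have h2 : (n : ℝ) < 4 * (n / 4 : ℕ) + 4 := by exact_mod_cast h1
    linarith
  have hd1 : (n : ℝ) / (4 * W) ≤ (n / 2 ^ (K + 1) : ℕ) := by
    have h1 : n < 2 ^ (K + 1) * (n / 2 ^ (K + 1) + 1) := Nat.lt_mul_div_succ n (by positivity)
    have h2 : (n : ℝ) < 2 ^ (K + 1) * ((n / 2 ^ (K + 1) : ℕ) + 1) := by exact_mod_cast h1
    rw [pow_succ, ← hW] at h2
    rw [div_le_iff₀ (by positivity)]
    linarith
  obtain ⟨y, hy⟩ : ∃ y : ℝ, y = n / (32 * W) := ⟨_, rfl⟩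
  have hyW : y * (32 * W) = n := by rw [hy]; field_simp
  have hdj : y ≤ ((n / 2 ^ (K + 1) : ℕ) : ℝ) * (n / 4 : ℕ) / n := by
    rw [hy, le_div_iff₀ hn0]
    calc (n : ℝ) / (32 * W) * n = n / (4 * W) * (n / 8) := by field_simp; ring
      _ ≤ _ := mul_le_mul hd1 hj1 (by positivity) (by positivity)
  have hy1 : 2 ^ 19 * W ≤ y := by
    rw [hy, le_div_iff₀ (by positivity)]
    linarith
  have hy2 : 1 ≤ y := by linarith
  have hf0 : (0 : ℝ) < n ! := by exact_mod_cast Nat.factorial_pos n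
  refine e4 hW1 hx1 hyW hy2 hxN hNW hf0 hZ hmain
    (e3 hW hKW hx1 (by positivity) (by exact_mod_cast hL) hlt) (by positivity) (by positivity)
    (e2 hW1 hyW hy2 hj1 (by positivity) ?_) (e1 hW1 hyW hy1 hdj)
  have h1 : (n.choose (n / 4) * (n - n / 4)!) * 2 ^ (n / 4) ≤ 2 * n ! := by
    calc (n.choose (n / 4) * (n - n / 4)!) * 2 ^ (n / 4)
        ≤ (n.choose (n / 4) * (n - n / 4)!) * (2 * (n / 4)!) :=
          Nat.mul_le_mul_left _ (two_pow_le_fact (n / 4))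
      _ = 2 * (n.choose (n / 4) * (n / 4)! * (n - n / 4)!) := by ring
      _ = 2 * n ! := by rw [Nat.choose_mul_factorial_mul_factorial (by omega)]
  exact_mod_cast h1

end Pool.Agent.TH837.AP
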