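import Pool.Agent.TH837.AP.Comb

/-!
The lower bound for (min,+) programs which approximate the assignment problem.
-/

set_option autoImplicit false

namespace Pool.Agent.TH837.AP

open Finset
open scoped Nat ENNReal
open Pool.Agent.TH837.SC

variable {n : ℕ}

/-- the requirements on a program: a finite value means that there is a perfect matching, and the
value for the matchings of `Z` is at most `R` -/
structure MReq (L : List (Ins (Fin n × Fin n))) (Z : Finset (Equiv.Perm (Fin n))) (R : ℝ≥0∞) :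
    Prop where
  sound : ∀ F : Set (Fin n × Fin n), val L (wt F) ≠ ⊤ →
    ∃ τ : Equiv.Perm (Fin n), ∀ i, (i, τ i) ∈ F
  bound : ∀ σ ∈ Z, val L (wt {e | e.2 = σ e.1}) ≤ R

variable {Z : Finset (Equiv.Perm (Fin n))} {L : List (Ins (Fin n × Fin n))}

theorem MReq.perm {R : ℝ≥0∞} (h : MReq L Z R) {p : Multiset (Fin n × Fin n)} (hp : P L p) :
    ∃ τ : Equiv.Perm (Fin n), ∀ i, (i, τ i) ∈ p := by
  obtain ⟨c, hc, h1⟩ := val_le hp
  have h2 := h1 (wt {S | S ∈ p})
  rw [sum_wt_of_mem (by intro S hS; exact hS)] at h2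
  exact h.sound _ (ne_top_of_le_ne_top (by simp [hc]) h2)

theorem MReq.mono {R : ℝ≥0∞} (h : MReq L Z R) (hR : R ≠ ⊤) (σ : Equiv.Perm (Fin n))
    (hσ : σ ∈ Z) : ∃ p, P L p ∧ (∀ e ∈ p, e.2 = σ e.1) ∧ (p.card : ℝ≥0∞) ≤ R := by
  have h1 := h.bound σ hσ
  obtain ⟨p, hp, h2⟩ := le_val L _ (ne_top_of_le_ne_top hR h1)
  have h3 := mem_of_sum_wt (ne_top_of_le_ne_top hR (h2.trans h1))
  refine ⟨p, hp, h3, ?_⟩
  rw [sum_wt_of_mem h3] at h2
  exact h2.trans h1

/-- the data of a matching -/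
structure Data [DecidableEq (List (Ins (Fin n × Fin n)))] (L : List (Ins (Fin n × Fin n)))
    (K : ℕ) (σ : Equiv.Perm (Fin n)) (S : Sk (Fin n × Fin n)) (R : Finset ℕ)
    (f : ℕ → Multiset (Fin n × Fin n)) : Prop where
  hS : S ∈ Sks L.tails.toFinset K
  hR : R ∈ (range K).powerset
  hK : S.size ≤ K
  dec : Dec L S 0 f
  gr : ∀ k, ∀ e ∈ f k, e.2 = σ e.1
  many : n / 2 ^ (K + 1) ≤ (univ.filter fun i => pat K σ f i = R).card
  few : 2 * (univ.filter fun i => ∃ k ∈ R, (i, σ i) ∈ f k).card ≤ n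

theorem MReq.data [DecidableEq (List (Ins (Fin n × Fin n)))] {K t : ℕ} {ρ : ℝ}
    (h : MReq L Z (ENNReal.ofReal (ρ * n))) (hρ : 1 ≤ ρ) (hK : 2 ^ (K + 1) ≤ n)
    (ht1 : 1 ≤ t) (ht : 8 * ρ * t ≤ n) (ht' : n ≤ 16 * ρ * t) (hKρ : 96 * ρ ^ 2 + 2 < K + 1)
    (σ : Equiv.Perm (Fin n)) (hσ : σ ∈ Z) : ∃ x : Sk (Fin n × Fin n) × Finset ℕ,
      ∃ f, Data L K σ x.1 x.2 f := by
  classical
  obtain ⟨p, hp, hpσ, hpc⟩ := h.mono (by simp) σ hσ
  have hn0 : (0 : ℝ) ≤ n := by positivity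
  have hpc' : (p.card : ℝ) ≤ ρ * n := by
    rw [← ENNReal.ofReal_natCast, ENNReal.ofReal_le_ofReal_iff (by positivity)] at hpc
    exact hpc
  obtain ⟨S, f, hS, hf, hfs, hfc, hsize⟩ := dec_exists L ht1 hp L 0 (List.suffix_refl _)
    Ctx.refl (by simp) 0
  rw [zero_add, zero_add] at hfs
  rw [Multiset.card_zero, zero_add] at hsize
  have ht0 : (0 : ℝ) < t := by exact_mod_cast ht1
  have hsK : S.size ≤ K := by
    have h1 : (S.size : ℝ) ≤ 96 * ρ ^ 2 + 2 := by
      refine hsize.trans ((G_le _).trans ?_)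
      have h2 : (p.card : ℝ) / t ≤ 16 * ρ ^ 2 := by
        rw [div_le_iff₀ ht0]
        calc (p.card : ℝ) ≤ ρ * n := hpc'
          _ ≤ ρ * (16 * ρ * t) := mul_le_mul_of_nonneg_left ht' (by linarith)
          _ = _ := by ring
      linarith
    have h2 : (S.size : ℝ) < K + 1 := lt_of_le_of_lt h1 hKρ
    have h3 : S.size < K + 1 := by exact_mod_cast h2
    omega
  let g : ℕ → Multiset (Fin n × Fin n) := fun k => if k < S.size then f k else 0
  have hg : ∀ k, 0 ≤ k → k < 0 + S.size → f k = g k := by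
    intro k _ hk
    simp only [g]
    rw [if_pos (by omega)]
  have hgs : ∑ k ∈ range K, g k = p := by
    have h1 : ∑ k ∈ range K, g k = ∑ k ∈ range S.size, g k := by
      symm
      apply sum_subset (range_subset_range.2 hsK)
      intro k _ hk
      simp only [g]
      rw [if_neg (by simpa using hk)]
    rw [h1, ← hfs, Finset.range_eq_Ico]
    refine sum_congr rfl fun k hk => ?_
    rw [mem_Ico] at hk
    rw [hg k hk.1 (by omega)]
  have hgσ : ∀ k, ∀ e ∈ g k, e.2 = σ e.1 := by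
    intro k e he
    apply hpσ
    by_cases hk : k < S.size
    · rw [← hgs, Multiset.mem_sum]
      exact ⟨k, mem_range.2 (by omega), he⟩
    · simp only [g] at he
      rw [if_neg hk] at he
      simp at he
  have hg1 : ∑ k ∈ range K, ((g k).card : ℝ) ≤ ρ * n := by
    refine le_trans (le_of_eq ?_) hpc'
    rw [← hgs, Multiset.card_sum]
    push_cast
    rfl
  have hg2 : ∀ k, (g k).card ≤ 2 * t := by
    intro k
    simp only [g]
    split_ifs
    · exact hfc k
    · simp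
  obtain ⟨R, hR, h1, h2⟩ := comb hρ hK ht σ g hg1 hg2
  exact ⟨(S, R), g, ⟨mem_Sks _ _ _ hS hsK, hR, hsK, hf.congr hg, hgσ, h1, h2⟩⟩

theorem MReq.pair [DecidableEq (List (Ins (Fin n × Fin n)))] {K : ℕ} {R₀ : ℝ≥0∞}
    (h : MReq L Z R₀) {σ σ' : Equiv.Perm (Fin n)} {S : Sk (Fin n × Fin n)} {R : Finset ℕ}
    {f f' : ℕ → Multiset (Fin n × Fin n)} (hf : Data L K σ S R f) (hf' : Data L K σ' S R f')
    {j : ℕ} (hj : 4 * j ≤ n) :
    (j ≤ (univ.filter fun i => σ i = σ' i).card) ∨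
      ∃ T : Finset (Fin n), Disjoint T (univ.filter fun i => pat K σ' f' i = R) ∧
        j ≤ T.card ∧ T.map σ.toEmbedding = T.map σ'.toEmbedding := by
  classical
  let g : ℕ → Multiset (Fin n × Fin n) := fun k => if k ∈ R then f k else f' k
  have hg : ∀ k, g k = f k ∨ g k = f' k := by
    intro k
    simp only [g]
    split_ifs
    · exact Or.inl rfl
    · exact Or.inr rfl
  obtain ⟨τ, hτ⟩ := h.perm (hf.dec.mix hg hf'.dec).sum
  refine mixed σ σ' τ f f' hf.gr hf'.gr (fun i => ?_) hf.few hj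
  obtain ⟨k, hk, hk'⟩ := Multiset.mem_sum.1 (hτ i)
  rw [mem_Ico] at hk
  by_cases hkR : k ∈ R
  · left
    simp only [g] at hk'
    rw [if_pos hkR] at hk'
    exact ⟨k, hkR, hk'⟩
  · right
    simp only [g] at hk'
    rw [if_neg hkR] at hk'
    have := hf.hK
    exact ⟨k, mem_range.2 (by omega), hkR, hk'⟩

theorem main {K t j : ℕ} {ρ : ℝ}
    (h : MReq L Z (ENNReal.ofReal (ρ * n))) (hρ : 1 ≤ ρ) (hK : 2 ^ (K + 1) ≤ n)
    (ht1 : 1 ≤ t) (ht : 8 * ρ * t ≤ n) (ht' : n ≤ 16 * ρ * t) (hKρ : 96 * ρ ^ 2 + 2 < K + 1)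
    (hj : 4 * j ≤ n) :
    (Z.card : ℝ) ≤ ((L.length : ℝ) + 2) ^ (2 ^ K - 1) * 2 ^ K *
      ((n.choose j * (n - j)! : ℕ) + n ! * ((n + 1) *
        Real.exp (-(((n / 2 ^ (K + 1) : ℕ) : ℝ) * j / n)))) := by
  classical
  have hn : 0 < n := lt_of_lt_of_le (by positivity) hK
  set B : ℝ := ((n.choose j * (n - j)! : ℕ) + n ! * ((n + 1) *
        Real.exp (-(((n / 2 ^ (K + 1) : ℕ) : ℝ) * j / n)))) with hB
  have hB0 : 0 ≤ B := by positivity
  have hdata : ∀ σ : Equiv.Perm (Fin n), ∃ x : Sk (Fin n × Fin n) × Finset ℕ, σ ∈ Z →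
      ∃ f, Data L K σ x.1 x.2 f := by
    intro σ
    by_cases hσ : σ ∈ Z
    · obtain ⟨x, hx⟩ := h.data hρ hK ht1 ht ht' hKρ σ hσ
      exact ⟨x, fun _ => hx⟩
    · exact ⟨(Sk.leaf, ∅), fun h' => absurd h' hσ⟩
  choose x hx using hdata
  set C : Finset (Sk (Fin n × Fin n) × Finset ℕ) :=
    Sks L.tails.toFinset K ×ˢ (range K).powerset with hC
  have hmaps : ∀ σ ∈ Z, x σ ∈ C := by
    intro σ hσ
    obtain ⟨f, hf⟩ := hx σ hσ
    exact mem_product.2 ⟨hf.hS, hf.hR⟩
  have hfib : ∀ c ∈ C, (((Z.filter fun σ => x σ = c).card : ℕ) : ℝ) ≤ B := by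
    intro c _
    rcases (Z.filter fun σ => x σ = c).eq_empty_or_nonempty with he | ⟨σ', hσ'⟩
    · rw [he]; simpa using hB0
    rw [mem_filter] at hσ'
    obtain ⟨f', hf'⟩ := hx σ' hσ'.1
    rw [hσ'.2] at hf'
    have hsub : (Z.filter fun σ => x σ = c) ⊆
        (univ.filter fun σ : Equiv.Perm (Fin n) => j ≤ (univ.filter fun i => σ i = σ' i).card) ∪
        (univ.filter fun σ : Equiv.Perm (Fin n) => ∃ T : Finset (Fin n),
          Disjoint T (univ.filter fun i => pat K σ' f' i = c.2) ∧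
          j ≤ T.card ∧ T.map σ.toEmbedding = T.map σ'.toEmbedding) := by
      intro σ hσ
      rw [mem_filter] at hσ
      obtain ⟨f, hf⟩ := hx σ hσ.1
      rw [hσ.2] at hf
      rw [mem_union, mem_filter, mem_filter]
      rcases h.pair hf hf' hj with h1 | h1
      · exact Or.inl ⟨mem_univ _, h1⟩
      · exact Or.inr ⟨mem_univ _, h1⟩
    have h1 := (card_le_card hsub).trans (card_union_le _ _)
    have h2 := card_common σ' j
    have h3 := card_closed_some σ' (univ.filter fun i => pat K σ' f' i = c.2) (a := j) hf'.many hn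
    calc (((Z.filter fun σ => x σ = c).card : ℕ) : ℝ) ≤
          ((univ.filter fun σ : Equiv.Perm (Fin n) =>
            j ≤ (univ.filter fun i => σ i = σ' i).card).card : ℝ) +
          ((univ.filter fun σ : Equiv.Perm (Fin n) => ∃ T : Finset (Fin n),
          Disjoint T (univ.filter fun i => pat K σ' f' i = c.2) ∧
          j ≤ T.card ∧ T.map σ.toEmbedding = T.map σ'.toEmbedding).card : ℝ) := by
          exact_mod_cast h1
      _ ≤ B := add_le_add (by exact_mod_cast h2) h3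
  have hCcard : (C.card : ℝ) ≤ ((L.length : ℝ) + 2) ^ (2 ^ K - 1) * 2 ^ K := by
    have h1 : L.tails.toFinset.card + 1 ≤ L.length + 2 := by
      have := List.toFinset_card_le L.tails
      rw [List.length_tails] at this
      omega
    have h2 : C.card ≤ (L.length + 2) ^ (2 ^ K - 1) * 2 ^ K := by
      rw [hC, card_product, card_powerset, card_range]
      exact Nat.mul_le_mul_right _ ((card_Sks _ K).trans (Nat.pow_le_pow_left h1 _))
    exact_mod_cast h2
  calc (Z.card : ℝ) = ((∑ c ∈ C, (Z.filter fun σ => x σ = c).card : ℕ) : ℝ) := by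
        rw [card_eq_sum_card_fiberwise (f := x) (t := C) hmaps]
    _ = ∑ c ∈ C, (((Z.filter fun σ => x σ = c).card : ℕ) : ℝ) := by push_cast; rfl
    _ ≤ ∑ _c ∈ C, B := sum_le_sum hfib
    _ = C.card * B := by rw [sum_const, nsmul_eq_mul]
    _ ≤ _ := mul_le_mul_of_nonneg_right hCcard hB0

end Pool.Agent.TH837.AP
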