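import Pool.Agent.TH837.AP.Final
import Pool.Agent.TH837.SC.Sem

/-!
Randomised (min,+) programs which approximate the assignment problem.
-/

set_option autoImplicit false

namespace Pool.Agent.TH837.AP

open Finset
open scoped Nat ENNReal
open Pool.Agent.TH837.SC (Ins val wt Prog Computes)

variable {n : ℕ}

/-- the assignment problem: the least weight of a perfect matching -/
noncomputable def opt (w : Fin n × Fin n → ℝ≥0∞) : ℝ≥0∞ :=
  ⨅ σ : Equiv.Perm (Fin n), ∑ i, w (i, σ i)

/-- the edges of `F` have weight one, the others have weight infinity -/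
noncomputable def unit (F : Finset (Fin n × Fin n)) : Fin n × Fin n → ℝ≥0∞ :=
  fun e => if e ∈ F then 1 else ⊤

/-- the edges of a perfect matching -/
def edges (σ : Equiv.Perm (Fin n)) : Finset (Fin n × Fin n) :=
  univ.filter fun e => e.2 = σ e.1

/-- a randomised program (with the uniform distribution on `R`) which never returns less than the
optimum, and which on each single perfect matching returns at most `ρ` times the optimum with
probability at least `q` -/
structure RandApprox (ρ q : ℝ) {R : Type} [Fintype R]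
    (f : R → (Fin n × Fin n → ℝ≥0∞) → ℝ≥0∞) : Prop where
  sound : ∀ (r : R) (F : Finset (Fin n × Fin n)), opt (unit F) ≤ f r (unit F)
  good : ∀ σ : Equiv.Perm (Fin n), q * Nat.card R ≤
    Nat.card {r : R // f r (unit (edges σ)) ≤ ENNReal.ofReal ρ * opt (unit (edges σ))}

theorem unit_eq_wt (F : Finset (Fin n × Fin n)) : unit F = wt (F : Set (Fin n × Fin n)) := by
  classical
  funext S
  simp [unit, wt]

theorem perm_of_opt {F : Finset (Fin n × Fin n)} (h : opt (unit F) ≠ ⊤) :
    ∃ τ : Equiv.Perm (Fin n), ∀ i, (i, τ i) ∈ F := by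
  by_contra hF
  push Not at hF
  apply h
  rw [opt, iInf_eq_top]
  intro τ
  obtain ⟨i, hi⟩ := hF τ
  rw [ENNReal.sum_eq_top]
  exact ⟨i, mem_univ _, by simp [unit, hi]⟩

theorem opt_edges (σ : Equiv.Perm (Fin n)) : opt (unit (edges σ)) ≤ n := by
  refine (iInf_le _ σ).trans ?_
  rw [sum_congr rfl (g := fun _ => (1 : ℝ≥0∞)) (fun i _ => by simp [unit, edges])]
  simp

theorem coe_edges (σ : Equiv.Perm (Fin n)) :
    ((edges σ : Finset (Fin n × Fin n)) : Set (Fin n × Fin n)) = {e | e.2 = σ e.1} := by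
  ext e
  simp [edges]

/-- averaging over the random programs -/
theorem rand {ρ q : ℝ} (hρ : 0 ≤ ρ) {R : Type} [Fintype R] [Nonempty R]
    {f : R → (Fin n × Fin n → ℝ≥0∞) → ℝ≥0∞} (hf : RandApprox ρ q f) {s : ℕ}
    (hs : ∀ r, Computes (f r) s) :
    ∃ (L : List (Ins (Fin n × Fin n))) (Z : Finset (Equiv.Perm (Fin n))), L.length ≤ s ∧
      MReq L Z (ENNReal.ofReal (ρ * n)) ∧ q * (n ! : ℕ) ≤ Z.card := by
  classical
  let T : R → Finset (Equiv.Perm (Fin n)) := fun r =>
    univ.filter fun σ => f r (unit (edges σ)) ≤ ENNReal.ofReal (ρ * n)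
  have hcard : (univ : Finset (Equiv.Perm (Fin n))).card = n ! := by
    rw [card_univ, Fintype.card_perm, Fintype.card_fin]
  have h1 : ∃ r, q * (n ! : ℕ) ≤ (T r).card := by
    by_contra hcon
    push Not at hcon
    have h2 : ∑ r : R, ((T r).card : ℝ) < ∑ _r : R, q * (n ! : ℕ) :=
      sum_lt_sum_of_nonempty univ_nonempty fun r _ => hcon r
    have h3 : ∑ r : R, ((T r).card : ℝ) =
        ∑ σ : Equiv.Perm (Fin n), ((univ.filter fun r : R =>
          f r (unit (edges σ)) ≤ ENNReal.ofReal (ρ * n)).card : ℝ) := by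
      have : ∑ r : R, (T r).card = ∑ σ : Equiv.Perm (Fin n), (univ.filter fun r : R =>
          f r (unit (edges σ)) ≤ ENNReal.ofReal (ρ * n)).card := by
        simp only [T, card_filter]
        exact sum_comm
      exact_mod_cast this
    have h4 : ∑ _σ : Equiv.Perm (Fin n), q * Nat.card R ≤
        ∑ σ : Equiv.Perm (Fin n), ((univ.filter fun r : R =>
          f r (unit (edges σ)) ≤ ENNReal.ofReal (ρ * n)).card : ℝ) := by
      refine sum_le_sum fun σ _ => (hf.good σ).trans ?_
      rw [Nat.card_eq_fintype_card, Fintype.card_subtype]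
      refine Nat.cast_le.2 (card_le_card fun r hr => ?_)
      rw [mem_filter] at hr ⊢
      refine ⟨mem_univ _, hr.2.trans ?_⟩
      rw [ENNReal.ofReal_mul hρ]
      refine mul_le_mul_right ?_ _
      rw [ENNReal.ofReal_natCast]
      exact opt_edges σ
    rw [sum_const, hcard, nsmul_eq_mul] at h4
    rw [h3, sum_const, card_univ, nsmul_eq_mul] at h2
    rw [Nat.card_eq_fintype_card] at h4
    nlinarith
  obtain ⟨r, hr⟩ := h1
  obtain ⟨L, hL, hval⟩ := (hs r).toIns
  refine ⟨L, T r, hL, ⟨?_, ?_⟩, hr⟩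
  · intro F hF
    have h2 : ∃ τ : Equiv.Perm (Fin n), ∀ i, (i, τ i) ∈ F.toFinset := by
      apply perm_of_opt
      have h3 : (unit F.toFinset : Fin n × Fin n → ℝ≥0∞) = wt F := by rw [unit_eq_wt]; simp
      refine ne_top_of_le_ne_top hF ?_
      rw [hval, ← h3]
      exact hf.sound r _
    obtain ⟨τ, hτ⟩ := h2
    exact ⟨τ, fun i => by simpa using hτ i⟩
  · intro σ hσ
    rw [hval, ← coe_edges, ← unit_eq_wt]
    exact (mem_filter.1 hσ).2

theorem lower {ρ : ℝ} (hρ : 1 ≤ ρ) {R : Type} [Fintype R] [Nonempty R]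
    {f : R → (Fin n × Fin n → ℝ≥0∞) → ℝ≥0∞}
    (hf : RandApprox ρ ((2 : ℝ) ^ (-((n : ℝ) / 2 ^ (220 * ρ ^ 2)))) f) {s : ℕ}
    (hs : ∀ r, Computes (f r) s) : (2 : ℝ) ^ ((n : ℝ) / 2 ^ (220 * ρ ^ 2)) ≤ s + 1 := by
  obtain ⟨L, Z, hL, hZ, hq⟩ := rand (by linarith) hf hs
  refine final hρ ?_ hZ hL hq
  obtain ⟨r⟩ := ‹Nonempty R›
  obtain ⟨l, _, hl, hls⟩ := hs r
  have := List.length_pos_of_mem hl
  omega

end Pool.Agent.TH837.AP
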